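import Mathlib

/-!
# The graph colouring game (MP_caab7c_co)

Two players, Alice and Bob, Alice first, alternately colour vertices of a graph with the colours
`0, …, k - 1`, neighbours never get the same colour.
-/

namespace Pool.Agent.ColGame

variable {V : Type} [DecidableEq V]

/-- The move `(v, c)`, colour the vertex `v` with `c`, is legal at the partial colouring `f`: `v` is
uncoloured, `c` is one of the `k` colours `0, …, k - 1`, no neighbour of `v` has the colour `c`. -/
def Legal (G : SimpleGraph V) (k : ℕ) (f : V → Option ℕ) (m : V × ℕ) : Prop :=
  f m.1 = none ∧ m.2 < k ∧ ∀ w, G.Adj m.1 w → f w ≠ some m.2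

/-- The partial colouring after the moves of the list `h`; the first element of `h` is the last
move. -/
def pos : List (V × ℕ) → V → Option ℕ
  | [] => fun _ => none
  | m :: h => Function.update (pos h) m.1 (some m.2)

/-- `h` is a play: each move is legal. -/
def IsPlay (G : SimpleGraph V) (k : ℕ) : List (V × ℕ) → Prop
  | [] => True
  | m :: h => IsPlay G k h ∧ Legal G k (pos h) m

/-- A strategy is a function of the previous moves. In `h` all moves which are made after `j` moves,
`j = p` modulo `2`, are those of the strategy `s` (`p = 0` for Alice, `p = 1` for Bob). -/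
def Follows (s : List (V × ℕ) → V × ℕ) (p : ℕ) : List (V × ℕ) → Prop
  | [] => True
  | m :: h => Follows s p h ∧ (h.length % 2 = p → m = s h)

/-- `s` is a strategy of the player `p`: in the plays which follow `s` it gives a legal move whenever
the player `p` is to move and a legal move exists. -/
def IsStrategy (G : SimpleGraph V) (k : ℕ) (p : ℕ) (s : List (V × ℕ) → V × ℕ) : Prop :=
  ∀ h, IsPlay G k h → Follows s p h → h.length % 2 = p → (∃ m, Legal G k (pos h) m) →
    Legal G k (pos h) (s h)

/-- The play is over: there is no legal move. -/
def Over (G : SimpleGraph V) (k : ℕ) (h : List (V × ℕ)) : Prop := ∀ m, ¬ Legal G k (pos h) m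

/-- Alice has a winning strategy with `k` colours: all vertices are coloured at the end. -/
def AliceWins (G : SimpleGraph V) (k : ℕ) : Prop :=
  ∃ s : List (V × ℕ) → V × ℕ, IsStrategy G k 0 s ∧
    ∀ h, IsPlay G k h → Follows s 0 h → Over G k h → ∀ v, pos h v ≠ none

/-- Bob has a winning strategy with `k` colours: some vertex is not coloured at the end. -/
def BobWins (G : SimpleGraph V) (k : ℕ) : Prop :=
  ∃ s : List (V × ℕ) → V × ℕ, IsStrategy G k 1 s ∧
    ∀ h, IsPlay G k h → Follows s 1 h → Over G k h → ∃ v, pos h v = none

end Pool.Agent.ColGame
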