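import Pool.Agent.ColGame.Defs
import Pool.Agent.Lib_helper77.ZhuCert.Main
import Pool.Agent.Lib_helper21.Zhu.Assemble

/-!
# From the winning regions to strategies
-/

namespace Pool.Agent.ColGame

open Pool.Agent.Lib_helper74.CG (AWin ncol ncol_update)

variable {V : Type} [Fintype V] [DecidableEq V] {G : SimpleGraph V} {k : ℕ}

theorem ncol_pos {h : List (V × ℕ)} (hp : IsPlay G k h) : ncol (pos h) = h.length := by
  induction h with
  | nil =>
    show (Finset.univ.filter (fun v : V => (none : Option ℕ) ≠ none)).card = 0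
    simp
  | cons m h ih =>
    obtain ⟨h1, h2⟩ := hp
    show ncol (Function.update (pos h) m.1 (some m.2)) = _
    rw [ncol_update h2.1, ih h1, List.length_cons]

theorem even_iff {h : List (V × ℕ)} (hp : IsPlay G k h) :
    Even (Finset.univ.filter (fun v => pos h v ≠ none)).card ↔ h.length % 2 = 0 := by
  have h1 : (Finset.univ.filter (fun v => pos h v ≠ none)).card = h.length := ncol_pos hp
  rw [h1, Nat.even_iff]

theorem aliceWins_of [Nonempty V] (h0 : AWin G k (fun _ => none)) : AliceWins G k := by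
  classical
  let s : List (V × ℕ) → V × ℕ := fun h =>
    if hx : ∃ m, Legal G k (pos h) m ∧ AWin G k (Function.update (pos h) m.1 (some m.2)) then
      hx.choose else Classical.arbitrary _
  have hs : ∀ h, AWin G k (pos h) → IsPlay G k h → h.length % 2 = 0 →
      (∃ m, Legal G k (pos h) m) → Legal G k (pos h) (s h) ∧
        AWin G k (Function.update (pos h) (s h).1 (some (s h).2)) := by
    intro h hw hp hl ⟨m, hm⟩
    obtain ⟨v, c, e1, e2, e3, e4⟩ := hw.cond.2.1 ((even_iff hp).2 hl) ⟨m.1, m.2, hm⟩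
    have hx : ∃ m, Legal G k (pos h) m ∧ AWin G k (Function.update (pos h) m.1 (some m.2)) :=
      ⟨(v, c), ⟨e1, e2, e3⟩, e4⟩
    have e : s h = hx.choose := dif_pos hx
    rw [e]
    exact hx.choose_spec
  have inv : ∀ h, IsPlay G k h → Follows s 0 h → AWin G k (pos h) := by
    intro h
    induction h with
    | nil => exact fun _ _ => h0
    | cons m h ih =>
      rintro ⟨hp, hm⟩ ⟨hf, he⟩
      have hw := ih hp hf
      by_cases hl : h.length % 2 = 0
      · rw [he hl]
        exact (hs h hw hp hl ⟨m, hm⟩).2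
      · exact hw.cond.2.2 (fun h => hl ((even_iff hp).1 h)) m.1 m.2 hm.1 hm.2.1 hm.2.2
  refine ⟨s, fun h hp hf hl hex => (hs h (inv h hp hf) hp hl hex).1, ?_⟩
  intro h hp hf ho
  refine (inv h hp hf).cond.1 ?_
  rintro ⟨v, c, e1, e2, e3⟩
  exact ho (v, c) ⟨e1, e2, e3⟩

theorem bobWins_of [Nonempty V] (h0 : ¬ AWin G k (fun _ => none)) : BobWins G k := by
  classical
  let s : List (V × ℕ) → V × ℕ := fun h =>
    if hx : ∃ m, Legal G k (pos h) m ∧ ¬ AWin G k (Function.update (pos h) m.1 (some m.2)) then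
      hx.choose else Classical.arbitrary _
  have hs : ∀ h, ¬ AWin G k (pos h) → IsPlay G k h → h.length % 2 = 1 →
      (∃ m, Legal G k (pos h) m) → Legal G k (pos h) (s h) ∧
        ¬ AWin G k (Function.update (pos h) (s h).1 (some (s h).2)) := by
    intro h hw hp hl ⟨m, hm⟩
    have hx : ∃ m, Legal G k (pos h) m ∧
        ¬ AWin G k (Function.update (pos h) m.1 (some m.2)) := by
      by_contra hno
      push Not at hno
      apply hw
      apply Pool.Agent.Lib_helper74.CG.Cond.awin
      refine ⟨fun h1 => absurd ⟨m.1, m.2, hm⟩ h1, fun h1 => ?_, ?_⟩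
      · have := (even_iff hp).1 h1
        omega
      · intro _ v c e1 e2 e3
        exact hno (v, c) ⟨e1, e2, e3⟩
    have e : s h = hx.choose := dif_pos hx
    rw [e]
    exact hx.choose_spec
  have inv : ∀ h, IsPlay G k h → Follows s 1 h → ¬ AWin G k (pos h) := by
    intro h
    induction h with
    | nil => exact fun _ _ => h0
    | cons m h ih =>
      rintro ⟨hp, hm⟩ ⟨hf, he⟩
      have hw := ih hp hf
      by_cases hl : h.length % 2 = 1
      · rw [he hl]
        exact (hs h hw hp hl ⟨m, hm⟩).2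
      · intro h1
        apply hw
        apply Pool.Agent.Lib_helper74.CG.Cond.awin
        refine ⟨fun h2 => absurd ⟨m.1, m.2, hm⟩ h2, fun _ _ => ?_, fun h2 => ?_⟩
        · exact ⟨m.1, m.2, hm.1, hm.2.1, hm.2.2, h1⟩
        · exact absurd ((even_iff hp).2 (by omega)) h2
  refine ⟨s, fun h hp hf hl hex => (hs h (inv h hp hf) hp hl hex).1, ?_⟩
  intro h hp hf ho
  by_contra hno
  push Not at hno
  apply inv h hp hf
  apply Pool.Agent.Lib_helper74.CG.Cond.awin
  refine ⟨fun _ => hno, ?_, ?_⟩
  · rintro _ ⟨v, c, e⟩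
    exact absurd e (ho (v, c))
  · intro _ v c e1 e2 e3
    exact absurd ⟨e1, e2, e3⟩ (ho (v, c))

/-- Zhu's question has a negative answer. -/
theorem main : ∃ (V : Type) (_ : Fintype V) (_ : DecidableEq V) (G : SimpleGraph V),
    Fintype.card V = 55 ∧ AliceWins G 4 ∧ BobWins G 5 := by
  have h := Pool.Agent.Lib_helper21.Zhu.glue3 Pool.Agent.Lib_helper77.ZhuCert.G 0 4 (by norm_num)
    (by rw [Fintype.card_fin]; decide)
    (by rw [Pool.Agent.Lib_helper21.Zhu.single_eq]; exact Pool.Agent.Lib_helper77.ZhuCert.hA)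
    (fun c hc h => Pool.Agent.Lib_helper77.ZhuCert.hB
      (by
        have h1 := Pool.Agent.Lib_helper21.Zhu.awin_single_zero _ hc h
        rwa [Pool.Agent.Lib_helper21.Zhu.single_eq] at h1))
  refine ⟨Pool.Agent.Lib_helper21.Zhu.GV (0 : Fin 19), inferInstance, inferInstance,
    Pool.Agent.Lib_helper21.Zhu.glue Pool.Agent.Lib_helper77.ZhuCert.G 0, ?_, ?_, ?_⟩
  · simp [Pool.Agent.Lib_helper21.Zhu.GV]
  · haveI : Nonempty (Pool.Agent.Lib_helper21.Zhu.GV (0 : Fin 19)) := ⟨none⟩
    exact aliceWins_of h.1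
  · haveI : Nonempty (Pool.Agent.Lib_helper21.Zhu.GV (0 : Fin 19)) := ⟨none⟩
    exact bobWins_of h.2

end Pool.Agent.ColGame
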